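import Pool.Agent.helper23.TH.Spec

set_option autoImplicit false

open scoped BigOperators Topology

namespace Pool.Agent.helper23.TH

open Classical in
theorem PU_key (T : Rooted) (hT : T.Balanced) (X : Type) (R₀ : Finset X) (N : ℕ)
    (τ : Fin N → (Fin T.r ⊕ Fin T.v) → X) (hinj : ∀ t, Function.Injective (τ t))
    (hr : ∀ t x, τ t (Sum.inl x) ∈ R₀) (hv : ∀ t y, τ t (Sum.inr y) ∉ R₀) (A : Finset (Fin N)) :
    T.e * ((A ×ˢ (Finset.univ : Finset (Fin T.v))).image
        (fun q : Fin N × Fin T.v => τ q.1 (Sum.inr q.2))).card ≤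
      T.v * ((A ×ˢ (Finset.univ : Finset (Fin T.e))).image
        (fun q : Fin N × Fin T.e => s(τ q.1 (T.ed q.2).1, τ q.1 (T.ed q.2).2))).card := by
  induction A using Finset.induction_on with
  | empty => simp
  | insert a A ha ih =>
    set VA := (A ×ˢ (Finset.univ : Finset (Fin T.v))).image
        (fun q : Fin N × Fin T.v => τ q.1 (Sum.inr q.2)) with hVA
    set EA := (A ×ˢ (Finset.univ : Finset (Fin T.e))).image
        (fun q : Fin N × Fin T.e => s(τ q.1 (T.ed q.2).1, τ q.1 (T.ed q.2).2)) with hEA
    set S : Finset (Fin T.v) := Finset.univ.filter (fun y => τ a (Sum.inr y) ∉ VA) with hS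
    set ES : Finset (Fin T.e) := Finset.univ.filter
      (fun i : Fin T.e => ∃ x ∈ S, (T.ed i).1 = Sum.inr x ∨ (T.ed i).2 = Sum.inr x) with hES
    have hendp : ∀ u ∈ EA, ∀ z ∈ u, z ∈ R₀ ∨ z ∈ VA := by
      intro u hu z hz
      rw [hEA, Finset.mem_image] at hu
      obtain ⟨q, hq, rfl⟩ := hu
      have hqA : q.1 ∈ A := (Finset.mem_product.mp hq).1
      have hh : ∀ w : Fin T.r ⊕ Fin T.v, τ q.1 w ∈ R₀ ∨ τ q.1 w ∈ VA := by
        intro w
        rcases w with w | w
        · exact Or.inl (hr _ _)
        · refine Or.inr ?_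
          rw [hVA, Finset.mem_image]
          exact ⟨(q.1, w), Finset.mem_product.mpr ⟨hqA, Finset.mem_univ _⟩, rfl⟩
      rcases Sym2.mem_iff.mp hz with rfl | rfl
      · exact hh _
      · exact hh _
    have hnew : ∀ i ∈ ES, s(τ a (T.ed i).1, τ a (T.ed i).2) ∉ EA := by
      intro i hi hmem
      rw [hES, Finset.mem_filter] at hi
      obtain ⟨-, x, hx, hx'⟩ := hi
      rw [hS, Finset.mem_filter] at hx
      have hz : τ a (Sum.inr x) ∈ s(τ a (T.ed i).1, τ a (T.ed i).2) := by
        rw [Sym2.mem_iff]
        rcases hx' with h | h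
        · exact Or.inl (by rw [h])
        · exact Or.inr (by rw [h])
      rcases hendp _ hmem _ hz with h | h
      · exact hv _ _ h
      · exact hx.2 h
    have hinjE : Function.Injective (fun i : Fin T.e => s(τ a (T.ed i).1, τ a (T.ed i).2)) := by
      intro i j hij
      apply T.inj
      have h1 : Sym2.map (τ a) s((T.ed i).1, (T.ed i).2) = Sym2.map (τ a) s((T.ed j).1, (T.ed j).2) := by
        simpa using hij
      exact Sym2.map.injective (hinj a) h1
    -- vertices
    have hV : ((insert a A ×ˢ (Finset.univ : Finset (Fin T.v))).image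
        (fun q : Fin N × Fin T.v => τ q.1 (Sum.inr q.2))).card ≤ VA.card + S.card := by
      have hsub : (insert a A ×ˢ (Finset.univ : Finset (Fin T.v))).image
        (fun q : Fin N × Fin T.v => τ q.1 (Sum.inr q.2)) ⊆
          VA ∪ S.image (fun y => τ a (Sum.inr y)) := by
        intro z hz
        rw [Finset.mem_image] at hz
        obtain ⟨q, hq, rfl⟩ := hz
        rw [Finset.mem_product] at hq
        rcases Finset.mem_insert.mp hq.1 with h | h
        · rw [Finset.mem_union]
          by_cases hc : τ q.1 (Sum.inr q.2) ∈ VA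
          · exact Or.inl hc
          · refine Or.inr ?_
            rw [Finset.mem_image]
            refine ⟨q.2, ?_, by rw [h]⟩
            rw [hS, Finset.mem_filter]
            refine ⟨Finset.mem_univ _, ?_⟩
            rw [← h]; exact hc
        · rw [Finset.mem_union]
          refine Or.inl ?_
          rw [hVA, Finset.mem_image]
          exact ⟨q, Finset.mem_product.mpr ⟨h, Finset.mem_univ _⟩, rfl⟩
      calc _ ≤ (VA ∪ S.image (fun y => τ a (Sum.inr y))).card := Finset.card_le_card hsub
        _ ≤ VA.card + (S.image (fun y => τ a (Sum.inr y))).card := Finset.card_union_le _ _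
        _ ≤ VA.card + S.card := by
          have := Finset.card_image_le (s := S) (f := fun y => τ a (Sum.inr y))
          omega
    -- edges
    have hE : EA.card + T.es S ≤ ((insert a A ×ˢ (Finset.univ : Finset (Fin T.e))).image
        (fun q : Fin N × Fin T.e => s(τ q.1 (T.ed q.2).1, τ q.1 (T.ed q.2).2))).card := by
      have hsub : EA ∪ ES.image (fun i : Fin T.e => s(τ a (T.ed i).1, τ a (T.ed i).2)) ⊆
          (insert a A ×ˢ (Finset.univ : Finset (Fin T.e))).image
        (fun q : Fin N × Fin T.e => s(τ q.1 (T.ed q.2).1, τ q.1 (T.ed q.2).2)) := by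
        intro z hz
        rw [Finset.mem_union] at hz
        rw [Finset.mem_image]
        rcases hz with hz | hz
        · rw [hEA, Finset.mem_image] at hz
          obtain ⟨q, hq, rfl⟩ := hz
          refine ⟨q, ?_, rfl⟩
          rw [Finset.mem_product] at hq ⊢
          exact ⟨Finset.mem_insert_of_mem hq.1, hq.2⟩
        · rw [Finset.mem_image] at hz
          obtain ⟨i, -, rfl⟩ := hz
          exact ⟨(a, i), Finset.mem_product.mpr ⟨Finset.mem_insert_self _ _, Finset.mem_univ _⟩, rfl⟩
      have hdisj : Disjoint EA (ES.image (fun i : Fin T.e => s(τ a (T.ed i).1, τ a (T.ed i).2))) := by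
        rw [Finset.disjoint_right]
        intro z hz
        rw [Finset.mem_image] at hz
        obtain ⟨i, hi, rfl⟩ := hz
        exact hnew i hi
      have h1 := Finset.card_le_card hsub
      rw [Finset.card_union_of_disjoint hdisj, Finset.card_image_of_injective _ hinjE] at h1
      have h2 : T.es S = ES.card := by
        unfold Rooted.es
        rw [hES]
      omega
    have hb := hT S
    calc T.e * _ ≤ T.e * (VA.card + S.card) := Nat.mul_le_mul_left _ hV
      _ = T.e * VA.card + T.e * S.card := by ring
      _ ≤ T.v * EA.card + T.v * T.es S := Nat.add_le_add ih hb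
      _ = T.v * (EA.card + T.es S) := by ring
      _ ≤ _ := Nat.mul_le_mul_left _ hE

theorem PU_inst {α β : Type*} (i1 i2 : DecidableEq β) (f : α → β) (s : Finset α) :
    (@Finset.image α β i1 f s).card = (@Finset.image α β i2 f s).card := by
  rw [Subsingleton.elim i1 i2]

theorem PU : PU_stmt := by
  intro T hT X _ R₀ N τ hinj hr hv
  have h := PU_key T hT X R₀ N τ hinj hr hv Finset.univ
  rw [Finset.univ_product_univ, Finset.univ_product_univ] at h
  exact le_of_eq_of_le (congrArg (fun x => T.e * x) (PU_inst _ _ _ _))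
    (h.trans (le_of_eq (congrArg (fun x => T.v * x) (PU_inst _ _ _ _))))

end Pool.Agent.helper23.TH
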