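import Mathlib
import Pool.Agent.helper23.TH.PU

/-!
Module EX2 of MP_26dbae_co (project of helper23): few pairs of disjoint colour isomorphic copies of a
balanced rooted graph have given roots, for a generic sequence of coefficients.
-/

set_option autoImplicit false

open scoped BigOperators Topology
open Filter

namespace Pool.Agent.helper23.TH

/-! ### Classes of sequences -/

/-- `cl` as a ring homomorphism -/
noncomputable def EX2_h : (ℕ → Om) →+* Kst := Filter.Germ.coeRingHom _

theorem EX2_h_apply (x : ℕ → Om) : EX2_h x = cl x := rfl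

theorem EX2_cl_eq {x y : ℕ → Om} :
    cl x = cl y ↔ ∀ᶠ j in (hyperfilter ℕ : Filter ℕ), x j = y j := Filter.Germ.coe_eq

/-- `col` commutes with classes -/
theorem EX2_col {b m d : ℕ} (a : ℕ → Fin m → Mon b d → Om) (x y : ℕ → Fin b → Om) (k : Fin m) :
    col (fun k μ => cl (fun j => a j k μ)) (fun i => cl (fun j => x j i)) (fun i => cl (fun j => y j i)) k
      = cl (fun j => col (a j) (x j) (y j) k) := by
  have hgg : ∀ i : Ix b, gg (fun i => cl (fun j => x j i)) (fun i => cl (fun j => y j i)) i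
      = EX2_h (fun j => gg (x j) (y j) i) := by
    intro i
    rcases i with i | ⟨i, i'⟩
    · simp only [gg]
      rw [← EX2_h_apply, ← EX2_h_apply, ← map_add]
      rfl
    · simp only [gg]
      rw [← EX2_h_apply, ← EX2_h_apply, ← EX2_h_apply, ← EX2_h_apply, ← map_mul, ← map_mul, ← map_add]
      rfl
  have hev : ∀ μ : Mon b d, ev (gg (fun i => cl (fun j => x j i)) (fun i => cl (fun j => y j i))) μ
      = EX2_h (fun j => ev (gg (x j) (y j)) μ) := by
    intro μ
    unfold ev
    rw [Finset.prod_congr rfl (fun i _ => by rw [hgg i, ← map_pow]), ← map_prod]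
    congr 1
    funext j
    simp only [Finset.prod_apply, Pi.pow_apply]
  have hterm : ∀ μ : Mon b d, cl (fun j => a j k μ) *
      ev (gg (fun i => cl (fun j => x j i)) (fun i => cl (fun j => y j i))) μ
      = EX2_h ((fun j => a j k μ) * (fun j => ev (gg (x j) (y j)) μ)) := by
    intro μ
    rw [hev μ, ← EX2_h_apply, ← map_mul]
  unfold col
  rw [← EX2_h_apply]
  refine (Finset.sum_congr rfl (fun μ _ => hterm μ)).trans ?_
  rw [← map_sum]
  congr 1
  funext j
  simp only [Finset.sum_apply, Pi.mul_apply]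

theorem EX2_two : (2 : Kst) ≠ 0 := by
  intro h
  have h1 : (algebraMap (ZMod 3) Kst) 2 = 0 := by rw [map_ofNat]; exact h
  have h2 := (map_eq_zero (algebraMap (ZMod 3) Kst)).1 h1
  exact absurd h2 (by decide)

/-- classes of distinct sequences of points are distinct -/
theorem EX2_ne {b : ℕ} (x y : ℕ → Fin b → Om) (h : ∀ j, x j ≠ y j) :
    (fun i => cl (fun j => x j i)) ≠ (fun i => cl (fun j => y j i)) := by
  intro he
  have h1 : ∀ i, ∀ᶠ j in (hyperfilter ℕ : Filter ℕ), x j i = y j i :=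
    fun i => EX2_cl_eq.1 (congrFun he i)
  have h2 : ∀ᶠ j in (hyperfilter ℕ : Filter ℕ), ∀ i, x j i = y j i := Filter.eventually_all.2 h1
  obtain ⟨j, hj⟩ := h2.exists
  exact h j (funext hj)

/-- the classes of solutions are solutions -/
theorem EX2_sol (T : Rooted) {b m d : ℕ} (a : ℕ → Fin m → Mon b d → Om)
    (ρ ρ' : ℕ → Fin T.r → Fin b → Om)
    (z : ℕ → (Fin T.r ⊕ Fin T.v → Fin b → Om) × (Fin T.r ⊕ Fin T.v → Fin b → Om))
    (hz : ∀ j, z j ∈ Sol T (a j) (ρ j) (ρ' j)) :
    ((fun x i => cl (fun j => (z j).1 x i), fun x i => cl (fun j => (z j).2 x i)) :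
      (Fin T.r ⊕ Fin T.v → Fin b → Kst) × (Fin T.r ⊕ Fin T.v → Fin b → Kst)) ∈
    Sol T (fun k μ => cl (fun j => a j k μ)) (fun x i => cl (fun j => ρ j x i))
      (fun x i => cl (fun j => ρ' j x i)) := by
  refine ⟨?_, ?_, ?_, ?_⟩
  · intro x
    funext i
    show cl _ = cl _
    congr 1
    funext j
    exact congrFun ((hz j).1 x) i
  · intro x
    funext i
    show cl _ = cl _
    congr 1
    funext j
    exact congrFun ((hz j).2.1 x) i
  · intro p q hpq
    by_contra hne
    have key : ∀ p : (Fin T.r ⊕ Fin T.v) ⊕ (Fin T.r ⊕ Fin T.v),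
        Sum.elim (fun x i => cl (fun j => (z j).1 x i)) (fun x i => cl (fun j => (z j).2 x i)) p
          = fun i => cl (fun j => Sum.elim (z j).1 (z j).2 p i) := by
      intro p
      rcases p with p | p <;> rfl
    refine EX2_ne (fun j => Sum.elim (z j).1 (z j).2 p) (fun j => Sum.elim (z j).1 (z j).2 q) ?_ ?_
    · intro j h
      exact hne ((hz j).2.2.1 h)
    · rw [← key p, ← key q]
      exact hpq
  · intro i
    funext k
    show col _ _ _ k = col _ _ _ k
    have h1 := EX2_col a (fun j => (z j).1 (T.ed i).1) (fun j => (z j).1 (T.ed i).2) k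
    have h2 := EX2_col a (fun j => (z j).2 (T.ed i).1) (fun j => (z j).2 (T.ed i).2) k
    refine h1.trans (Eq.trans ?_ h2.symm)
    congr 1
    funext j
    exact congrFun ((hz j).2.2.2 i) k

/-! ### The count over a field -/

open Classical in
theorem EX2_image {α β : Type} (E : Finset α) (f : α → β)
    (h : ∀ x ∈ E, ∃ y ∈ E, y ≠ x ∧ f y = f x) : 2 * (E.image f).card ≤ E.card := by
  rw [Finset.card_eq_sum_card_image f E, mul_comm, ← smul_eq_mul]
  refine Finset.card_nsmul_le_sum _ _ 2 ?_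
  intro b hb
  obtain ⟨x, hx, rfl⟩ := Finset.mem_image.1 hb
  obtain ⟨y, hy, hyx, hf⟩ := h x hx
  refine Nat.succ_le_of_lt (Finset.one_lt_card.2 ⟨x, ?_, y, ?_, hyx.symm⟩)
  · exact Finset.mem_filter.2 ⟨hx, rfl⟩
  · exact Finset.mem_filter.2 ⟨hy, hf⟩

open Classical in
theorem EX2_core (hCD : CD_stmt) (hPU : PU_stmt) (T : Rooted) (hT : T.Balanced) (d : ℕ)
    (k₀ F : Type) [Field k₀] [Field F] [Algebra k₀ F] (h2 : (2 : F) ≠ 0)
    (a : Fin (2 * T.v) → Mon T.e d → F) (R R' : Fin T.r → Fin T.e → F) (s : ℕ)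
    (hs : 2 * s * T.e ≤ d)
    (z : Fin s → (Fin T.r ⊕ Fin T.v → Fin T.e → F) × (Fin T.r ⊕ Fin T.v → Fin T.e → F))
    (hz : ∀ t, z t ∈ Sol T a R R') (y : Fin s → F)
    (hy : ∀ t, ∃ x i, y t = (z t).1 x i ∨ y t = (z t).2 x i)
    (hind : AlgebraicIndependent k₀
      (Sum.elim (fun q : Fin (2 * T.v) × Mon T.e d => a q.1 q.2) y)) :
    s ≤ 2 * T.r * T.e := by
  -- the copies
  let σ : Fin s ⊕ Fin s → (Fin T.r ⊕ Fin T.v) → (Fin T.e → F) :=
    Sum.elim (fun t => (z t).1) (fun t => (z t).2)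
  let τ : Fin (s + s) → (Fin T.r ⊕ Fin T.v) → (Fin T.e → F) := fun u => σ (finSumFinEquiv.symm u)
  let R₀ : Finset (Fin T.e → F) := Finset.univ.image R ∪ Finset.univ.image R'
  have hR₀ : R₀.card ≤ 2 * T.r := by
    calc R₀.card ≤ (Finset.univ.image R).card + (Finset.univ.image R').card :=
          Finset.card_union_le _ _
      _ ≤ (Finset.univ : Finset (Fin T.r)).card + (Finset.univ : Finset (Fin T.r)).card :=
          Nat.add_le_add Finset.card_image_le Finset.card_image_le
      _ = 2 * T.r := by rw [Finset.card_univ, Fintype.card_fin]; ring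
  have hinj1 : ∀ t, Function.Injective (z t).1 := by
    intro t p q h
    have := (hz t).2.2.1 (a₁ := Sum.inl p) (a₂ := Sum.inl q) h
    exact Sum.inl_injective this
  have hinj2 : ∀ t, Function.Injective (z t).2 := by
    intro t p q h
    have := (hz t).2.2.1 (a₁ := Sum.inr p) (a₂ := Sum.inr q) h
    exact Sum.inr_injective this
  have hdis : ∀ t p q, (z t).1 p ≠ (z t).2 q := by
    intro t p q h
    have := (hz t).2.2.1 (a₁ := Sum.inl p) (a₂ := Sum.inr q) h
    exact Sum.inl_ne_inr this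
  have hσinj : ∀ u, Function.Injective (σ u) := by
    intro u
    rcases u with t | t
    · exact hinj1 t
    · exact hinj2 t
  have hσroot : ∀ u x, σ u (Sum.inl x) ∈ R₀ := by
    intro u x
    rcases u with t | t
    · show (z t).1 (Sum.inl x) ∈ R₀
      rw [(hz t).1 x]
      exact Finset.mem_union_left _ (Finset.mem_image_of_mem _ (Finset.mem_univ _))
    · show (z t).2 (Sum.inl x) ∈ R₀
      rw [(hz t).2.1 x]
      exact Finset.mem_union_right _ (Finset.mem_image_of_mem _ (Finset.mem_univ _))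
  have hσinner : ∀ u y, σ u (Sum.inr y) ∉ R₀ := by
    intro u y hmem
    rcases u with t | t
    · change (z t).1 (Sum.inr y) ∈ R₀ at hmem
      rcases Finset.mem_union.1 hmem with h | h
      · obtain ⟨x, -, hx⟩ := Finset.mem_image.1 h
        rw [← (hz t).1 x] at hx
        exact absurd (hinj1 t hx) (by simp)
      · obtain ⟨x, -, hx⟩ := Finset.mem_image.1 h
        rw [← (hz t).2.1 x] at hx
        exact hdis t _ _ hx.symm
    · change (z t).2 (Sum.inr y) ∈ R₀ at hmem
      rcases Finset.mem_union.1 hmem with h | h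
      · obtain ⟨x, -, hx⟩ := Finset.mem_image.1 h
        rw [← (hz t).1 x] at hx
        exact hdis t _ _ hx
      · obtain ⟨x, -, hx⟩ := Finset.mem_image.1 h
        rw [← (hz t).2.1 x] at hx
        exact absurd (hinj2 t hx) (by simp)
  have hPU' := hPU T hT (Fin T.e → F) R₀ (s + s) τ (fun u => hσinj _) (fun u x => hσroot _ x)
    (fun u y => hσinner _ y)
  set I : Finset (Fin T.e → F) :=
    Finset.univ.image (fun q : Fin (s + s) × Fin T.v => τ q.1 (Sum.inr q.2)) with hI
  set E : Finset (Sym2 (Fin T.e → F)) := Finset.univ.image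
      (fun q : Fin (s + s) × Fin T.e => s(τ q.1 (T.ed q.2).1, τ q.1 (T.ed q.2).2)) with hE
  have hEcard : E.card ≤ d + 1 := by
    calc E.card ≤ (Finset.univ : Finset (Fin (s + s) × Fin T.e)).card := Finset.card_image_le
      _ = (s + s) * T.e := by
          rw [Finset.card_univ, Fintype.card_prod, Fintype.card_fin, Fintype.card_fin]
      _ = 2 * s * T.e := by ring
      _ ≤ d + 1 := by omega
  -- all vertices
  have hmemW : ∀ u x, τ u x ∈ R₀ ∪ I := by
    intro u x
    rcases x with x | x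
    · exact Finset.mem_union_left _ (hσroot _ x)
    · exact Finset.mem_union_right _ (Finset.mem_image.2 ⟨(u, x), Finset.mem_univ _, rfl⟩)
  have hmemσ : ∀ u x, σ u x ∈ R₀ ∪ I := by
    intro u x
    have := hmemW (finSumFinEquiv u) x
    have h3 : τ (finSumFinEquiv u) x = σ u x := by
      show σ (finSumFinEquiv.symm (finSumFinEquiv u)) x = σ u x
      rw [Equiv.symm_apply_apply]
    rwa [h3] at this
  have hEmem : ∀ u i, s(σ u (T.ed i).1, σ u (T.ed i).2) ∈ E := by
    intro u i
    refine Finset.mem_image.2 ⟨(finSumFinEquiv u, i), Finset.mem_univ _, ?_⟩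
    show s(σ (finSumFinEquiv.symm (finSumFinEquiv u)) _, σ (finSumFinEquiv.symm (finSumFinEquiv u)) _) = _
    rw [Equiv.symm_apply_apply]
  have hEW : ∀ ε ∈ E, ∀ x ∈ ε, x ∈ R₀ ∪ I := by
    intro ε hε x hx
    obtain ⟨q, -, rfl⟩ := Finset.mem_image.1 hε
    rcases Sym2.mem_iff.1 hx with h | h
    · rw [h]; exact hmemW _ _
    · rw [h]; exact hmemW _ _
  -- colours
  have hpart : ∀ ε ∈ E, ∃ ε' ∈ E, ε' ≠ ε ∧ colS a ε' = colS a ε := by
    intro ε hε
    obtain ⟨q, -, rfl⟩ := Finset.mem_image.1 hε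
    obtain ⟨u, i⟩ := q
    show ∃ ε' ∈ E, ε' ≠ s(σ (finSumFinEquiv.symm u) (T.ed i).1, σ (finSumFinEquiv.symm u) (T.ed i).2) ∧
      colS a ε' = colS a s(σ (finSumFinEquiv.symm u) (T.ed i).1, σ (finSumFinEquiv.symm u) (T.ed i).2)
    rcases finSumFinEquiv.symm u with t | t
    · refine ⟨s(σ (Sum.inr t) (T.ed i).1, σ (Sum.inr t) (T.ed i).2), hEmem _ _, ?_, ?_⟩
      · intro h
        have h1 : (z t).2 (T.ed i).1 ∈ s((z t).1 (T.ed i).1, (z t).1 (T.ed i).2) := by
          have h3 : (z t).2 (T.ed i).1 ∈ s((z t).2 (T.ed i).1, (z t).2 (T.ed i).2) :=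
            Sym2.mem_mk_left _ _
          exact h ▸ h3
        rcases Sym2.mem_iff.1 h1 with h3 | h3
        · exact hdis t _ _ h3.symm
        · exact hdis t _ _ h3.symm
      · exact ((hz t).2.2.2 i).symm
    · refine ⟨s(σ (Sum.inl t) (T.ed i).1, σ (Sum.inl t) (T.ed i).2), hEmem _ _, ?_, ?_⟩
      · intro h
        have h1 : (z t).1 (T.ed i).1 ∈ s((z t).2 (T.ed i).1, (z t).2 (T.ed i).2) := by
          have h3 : (z t).1 (T.ed i).1 ∈ s((z t).1 (T.ed i).1, (z t).1 (T.ed i).2) :=
            Sym2.mem_mk_left _ _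
          exact h ▸ h3
        rcases Sym2.mem_iff.1 h1 with h3 | h3
        · exact hdis t _ _ h3
        · exact hdis t _ _ h3
      · exact (hz t).2.2.2 i
  have him : 2 * (E.image (colS a)).card ≤ E.card := by
    exact le_of_eq_of_le (congrArg (fun x => 2 * x) (PU_inst _ _ _ _)) (EX2_image E (colS a) hpart)
  have hCD' := hCD k₀ F h2 T.e (2 * T.v) d a (R₀ ∪ I) E hEW hEcard s y (by
    intro t
    obtain ⟨x, i, h | h⟩ := hy t
    · exact ⟨(z t).1 x, hmemσ (Sum.inl t) x, i, h⟩
    · exact ⟨(z t).2 x, hmemσ (Sum.inr t) x, i, h⟩) hind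
  have hW : (R₀ ∪ I).card ≤ 2 * T.r + I.card :=
    (Finset.card_union_le _ _).trans (Nat.add_le_add_right hR₀ _)
  have h5 : T.e * (R₀ ∪ I).card ≤ T.e * (2 * T.r) + T.e * I.card := by
    rw [← mul_add]; exact Nat.mul_le_mul_left _ hW
  have h6 : 2 * T.v * (E.image (colS a)).card ≤ T.v * E.card := by
    have := Nat.mul_le_mul_left T.v him
    calc 2 * T.v * (E.image (colS a)).card = T.v * (2 * (E.image (colS a)).card) := by ring
      _ ≤ T.v * E.card := this
  have h7 : 2 * T.v * E.card = T.v * E.card + T.v * E.card := by ring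
  have h8 : T.e * (2 * T.r) = 2 * T.r * T.e := by ring
  rw [h7] at hCD'
  rw [h8] at h5
  have h9 : T.e * I.card ≤ T.v * E.card := by
    exact le_of_eq_of_le (congrArg (fun x => T.e * x) (PU_inst _ _ _ _))
      (hPU'.trans (le_of_eq (congrArg (fun x => T.v * x) (PU_inst _ _ _ _))))
  have h10 : s + (T.v * E.card + T.v * E.card) ≤
      T.e * (R₀ ∪ I).card + 2 * T.v * (E.image (colS a)).card := by
    exact hCD'.trans (Nat.add_le_add_left
      (le_of_eq (congrArg (fun x => 2 * T.v * x) (PU_inst _ _ _ _))) _)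
  omega

/-! ### The statement -/

/-- both copies as one family of coordinates -/
def EX2_flat {b r v : ℕ} {F : Type} (z : (Fin r ⊕ Fin v → Fin b → F) × (Fin r ⊕ Fin v → Fin b → F)) :
    ((Fin r ⊕ Fin v) × Fin b) ⊕ ((Fin r ⊕ Fin v) × Fin b) → F :=
  Sum.elim (fun q => z.1 q.1 q.2) (fun q => z.2 q.1 q.2)

theorem EX2_flat_inj {b r v : ℕ} {F : Type} :
    Function.Injective (EX2_flat (b := b) (r := r) (v := v) (F := F)) := by
  intro z z' h
  refine Prod.ext ?_ ?_
  · funext x i
    exact congrFun h (Sum.inl (x, i))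
  · funext x i
    exact congrFun h (Sum.inr (x, i))

theorem EX2 (hGE : GE_stmt) (hCD : CD_stmt) (hPU : PU_stmt) : EX2_stmt := by
  intro T hT _hv d hd a ha ρ ρ'
  by_contra hcon
  push Not at hcon
  obtain ⟨w, hw, c, hind⟩ := hGE (Fin (2 * T.v) × Mon T.e d)
    (((Fin T.r ⊕ Fin T.v) × Fin T.e) ⊕ ((Fin T.r ⊕ Fin T.v) × Fin T.e))
    (fun j q => a j q.1 q.2) (fun j => EX2_flat '' Sol T (a j) (ρ j) (ρ' j)) ha
    (fun j => by rw [EX2_flat_inj.encard_image]; exact hcon j) (2 * T.r * T.e + 1)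
  choose z hz hzw using hw
  have hle := EX2_core hCD hPU T hT d (ZMod 3) Kst EX2_two
    (fun k μ => cl (fun j => a j k μ)) (fun x i => cl (fun j => ρ j x i))
    (fun x i => cl (fun j => ρ' j x i)) (2 * T.r * T.e + 1) hd
    (fun t => (fun x i => cl (fun j => (z t j).1 x i), fun x i => cl (fun j => (z t j).2 x i)))
    (fun t => EX2_sol T a ρ ρ' (fun j => z t j) (fun j => hz t j))
    (fun t => cl (fun j => w t j (c t))) (by
      intro t
      rcases hct : c t with ⟨x, i⟩ | ⟨x, i⟩
      · refine ⟨x, i, Or.inl ?_⟩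
        show cl _ = cl _
        congr 1
        funext j
        rw [← hzw t j]
        rfl
      · refine ⟨x, i, Or.inr ?_⟩
        show cl _ = cl _
        congr 1
        funext j
        rw [← hzw t j]
        rfl) hind
  omega

end Pool.Agent.helper23.TH
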