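import Pool.Agent.helper23.TH.Main
import Pool.Agent.helper1.TH.GLU
import Pool.Agent.helper21.TH.CD
import Pool.Agent.helper38.TH.BAD
import Pool.Agent.helper38.TH.WI
import Pool.Agent.helper4.TH.GE
import Pool.Agent.helper40.TH.EX
import Pool.Agent.helper40.TH.UA
import Pool.Agent.helper51.TH.RGL
import Pool.Agent.helper55.TH.LB
import Pool.Agent.helper60.TH.EC
import Pool.Agent.helper23.TH.EX2
import Pool.Agent.helper23.TH.PU
import Pool.Agent.helper75.TH.FP
import Pool.Agent.helper75.TH.IP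
import Pool.Agent.helper75.TH.ISO
import Pool.Agent.helper75.TH.TU
import Pool.Agent.helper78.TH.SZ
import Pool.Agent.helper78.TH.WC
import Pool.Agent.helper91.TH.TR
import Pool.Agent.helper92.TH.EX1
import Pool.Agent.helper92.TH.GC
import Pool.Agent.helper99.TH.PB

/-!
MP_26dbae_co: all modules together.
-/

set_option autoImplicit false

namespace Pool.Agent.helper23.TH

theorem all_CD : CD_stmt := CD SEP IP

theorem all_UB : UB_stmt := UA (EX (EX1 GE all_CD) (EX2 GE all_CD PU) SZ) GC

theorem all_LB : LB_stmt := LB RGL EC (FP WC WI GLU (BAD WC GLU) TU) TR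

theorem all_Main : Main_stmt := by
  refine ⟨fun l hl => ?_, fun T hT hv he h2 => MAIN_upper MONO all_UB T hT hv he h2⟩
  obtain ⟨p₀, h⟩ := MAIN_theta MONO PB all_UB all_LB l hl
  exact ⟨fun p => PB.2 l p, ⟨p₀, h⟩, ISO _ _ _ (PB.2 l p₀) (h p₀ le_rfl)⟩

end Pool.Agent.helper23.TH
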