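import Mathlib

/-!
MP_26dbae_co: definitions used in the results on `f_2(n, H)`.
-/

set_option autoImplicit false

namespace Pool.Agent.helper23.TH

/-! ### Colourings -/

/-- a proper edge colouring of the complete graph on `V` -/
structure PC {V K : Type*} (χ : V → V → K) : Prop where
  symm : ∀ a b, χ a b = χ b a
  proper : ∀ a b d, a ≠ b → a ≠ d → b ≠ d → χ a b ≠ χ a d

/-- `χ` has two vertex disjoint colour isomorphic copies of `H` -/
def Two {W V K : Type*} (H : SimpleGraph W) (χ : V → V → K) : Prop :=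
  ∃ φ ψ : W → V, Function.Injective φ ∧ Function.Injective ψ ∧ (∀ u v, φ u ≠ ψ v) ∧
    ∀ u v, H.Adj u v → χ (φ u) (φ v) = χ (ψ u) (ψ v)

/-- `f_2(n, H) = Θ(n ^ r)` -/
def Law {W : Type*} (H : SimpleGraph W) (r : ℝ) : Prop :=
  ∃ c C : ℝ, 0 < c ∧ 0 < C ∧ ∃ N : ℕ, ∀ n : ℕ, N ≤ n →
    (∃ m : ℕ, (m : ℝ) ≤ C * (n : ℝ) ^ r ∧ ∃ χ : Fin n → Fin n → Fin m, PC χ ∧ ¬ Two H χ) ∧
    (∀ m : ℕ, ∀ χ : Fin n → Fin n → Fin m, PC χ → ¬ Two H χ → c * (n : ℝ) ^ r ≤ (m : ℝ))

/-! ### Rooted graphs and their powers -/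

/-- a rooted graph with `r` roots, `v` further vertices (called inner) and `e` edges -/
structure Rooted where
  r : ℕ
  v : ℕ
  e : ℕ
  ed : Fin e → (Fin r ⊕ Fin v) × (Fin r ⊕ Fin v)
  inj : Function.Injective (fun i => s((ed i).1, (ed i).2))
  loopless : ∀ i, (ed i).1 ≠ (ed i).2

/-- number of edges which meet the set `S` of inner vertices -/
def Rooted.es (T : Rooted) (S : Finset (Fin T.v)) : ℕ :=
  (Finset.univ.filter (fun i : Fin T.e => ∃ x ∈ S, (T.ed i).1 = Sum.inr x ∨ (T.ed i).2 = Sum.inr x)).card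

/-- `T` is balanced: every set `S` of inner vertices meets at least `|S| e / v` edges -/
def Rooted.Balanced (T : Rooted) : Prop := ∀ S : Finset (Fin T.v), T.e * S.card ≤ T.v * T.es S

/-- the vertices of the copy `t` -/
def Rooted.lift (T : Rooted) {p : ℕ} (t : Fin p) :
    Fin T.r ⊕ Fin T.v → Fin T.r ⊕ (Fin p × Fin T.v)
  | .inl x => .inl x
  | .inr y => .inr (t, y)

theorem Rooted.lift_inj (T : Rooted) {p : ℕ} (t : Fin p) : Function.Injective (T.lift t) := by
  intro a b h
  rcases a with a | a <;> rcases b with b | b <;> simp [Rooted.lift] at h ⊢ <;> exact h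

/-- the `p`-th power of `T`: `p` copies of `T` glued along the roots -/
def Rooted.pw (T : Rooted) (p : ℕ) : SimpleGraph (Fin T.r ⊕ (Fin p × Fin T.v)) where
  Adj a b := ∃ (t : Fin p) (i : Fin T.e),
    (a = T.lift t (T.ed i).1 ∧ b = T.lift t (T.ed i).2) ∨
      (b = T.lift t (T.ed i).1 ∧ a = T.lift t (T.ed i).2)
  symm := ⟨by
    rintro a b ⟨t, i, h | h⟩
    · exact ⟨t, i, Or.inr h⟩
    · exact ⟨t, i, Or.inl h⟩⟩
  loopless := ⟨by
    rintro a ⟨t, i, ⟨h, h'⟩ | ⟨h, h'⟩⟩
    · exact T.loopless i (T.lift_inj t (h.symm.trans h'))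
    · exact T.loopless i (T.lift_inj t (h.symm.trans h'))⟩

/-- the vertex at distance `i` from the first end of the path of length `l` whose ends are the roots -/
def pos (l : ℕ) (i : ℕ) : Fin 2 ⊕ Fin (l - 1) :=
  if h : 1 ≤ i ∧ i < l then .inr ⟨i - 1, by omega⟩ else if i = 0 then .inl 0 else .inl 1

theorem pos_inj (l : ℕ) {i j : ℕ} (hi : i ≤ l) (hj : j ≤ l) (h : pos l i = pos l j) : i = j := by
  unfold pos at h
  split_ifs at h with h1 h2 h3 h4 h5 h6 h7 <;> simp at h <;> omega

/-- the path with `l` edges, rooted at its two ends -/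
def pathT (l : ℕ) : Rooted where
  r := 2
  v := l - 1
  e := l
  ed i := (pos l i.1, pos l (i.1 + 1))
  inj := by
    intro i j h
    have hi := i.2
    have hj := j.2
    simp only [Sym2.eq_iff] at h
    rcases h with ⟨h1, _⟩ | ⟨h1, h2⟩
    · exact Fin.ext (pos_inj l (by omega) (by omega) h1)
    · have a := pos_inj l (by omega) (by omega) h1
      have b := pos_inj l (by omega) (by omega) h2
      omega
  loopless := by
    intro i h
    have := pos_inj l (by omega) (by omega) h
    omega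

/-- the theta graph: `p` internally disjoint paths of length `l` between two vertices -/
abbrev theta (l p : ℕ) : SimpleGraph (Fin (pathT l).r ⊕ (Fin p × Fin (pathT l).v)) := (pathT l).pw p

end Pool.Agent.helper23.TH
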