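import Pool.Agent.helper23.TH.Spec

/-!
MP_26dbae_co: assembly.
-/

set_option autoImplicit false

namespace Pool.Agent.helper23.TH

/-- powers of balanced rooted graphs, all large `p` -/
theorem MAIN_upper (hM : MONO_stmt) (hU : UB_stmt) (T : Rooted) (hT : T.Balanced) (hv : 1 ≤ T.v)
    (he : 1 ≤ T.e) (h2 : T.e ≤ 2 * T.v) : ∃ p₀ : ℕ, ∀ p : ℕ, p₀ ≤ p → ∃ C : ℝ, 0 < C ∧ ∃ N : ℕ,
      ∀ n : ℕ, N ≤ n → ∃ m : ℕ, (m : ℝ) ≤ C * (n : ℝ) ^ (2 * (T.v : ℝ) / T.e) ∧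
        ∃ χ : Fin n → Fin n → Fin m, PC χ ∧ ¬ Two (T.pw p) χ := by
  obtain ⟨p₀, C, hC, N, h⟩ := hU T hT hv he h2
  refine ⟨p₀, fun p hp => ⟨C, hC, N, fun n hn => ?_⟩⟩
  obtain ⟨m, hm, χ, h1, h3⟩ := h n hn
  exact ⟨m, hm, χ, h1, fun h4 => h3 (hM T p₀ p hp _ _ χ h4)⟩

/-- theta graphs -/
theorem MAIN_theta (hM : MONO_stmt) (hP : PB_stmt) (hU : UB_stmt) (hL : LB_stmt) (l : ℕ) (hl : 3 ≤ l) :
    ∃ p₀ : ℕ, ∀ p : ℕ, p₀ ≤ p → Law (theta l p) (2 - 2 / (l : ℝ)) := by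
  have hv : 1 ≤ (pathT l).v := by show 1 ≤ l - 1; omega
  have he : 1 ≤ (pathT l).e := by show 1 ≤ l; omega
  have h2 : (pathT l).e ≤ 2 * (pathT l).v := by show l ≤ 2 * (l - 1); omega
  obtain ⟨p₀, h⟩ := MAIN_upper hM hU (pathT l) (hP.1 l (by omega)) hv he h2
  refine ⟨max p₀ 2, fun p hp => ?_⟩
  obtain ⟨C, hC, N, h⟩ := h p ((le_max_left _ _).trans hp)
  obtain ⟨c, hc, N', h'⟩ := hL l p (by omega) ((le_max_right _ _).trans hp)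
  have hexp : 2 * (((pathT l).v : ℕ) : ℝ) / ((pathT l).e : ℕ) = 2 - 2 / (l : ℝ) := by
    have h3 : (((pathT l).v : ℕ) : ℝ) = (l : ℝ) - 1 := by
      show ((l - 1 : ℕ) : ℝ) = (l : ℝ) - 1
      rw [Nat.cast_sub (by omega)]; simp
    have h4 : (((pathT l).e : ℕ) : ℝ) = (l : ℝ) := rfl
    have h5 : (l : ℝ) ≠ 0 := by
      have : (0 : ℝ) < l := by exact_mod_cast (by omega : 0 < l)
      exact this.ne'
    rw [h3, h4]
    field_simp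
  refine ⟨c, C, hc, hC, max N N', fun n hn => ⟨?_, fun m χ h1 h3 => ?_⟩⟩
  · obtain ⟨m, hm, χ, h1, h3⟩ := h n ((le_max_left _ _).trans hn)
    rw [hexp] at hm
    exact ⟨m, hm, χ, h1, h3⟩
  · exact h' n ((le_max_right _ _).trans hn) m χ h1 h3

end Pool.Agent.helper23.TH
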