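import Pool.Agent.helper23.TH.Defs

/-!
MP_26dbae_co: `f_2(n, θ_{l,p}) = Θ(n^{2 - 2/l})` for `l ≥ 3` and all large `p`, and
`f_2(n, T^p) = O(n^{2 v / e})` for every balanced rooted graph `T` and all large `p`.
Definitions and statements of the modules.
-/

set_option autoImplicit false

open scoped BigOperators Topology
open Filter

namespace Pool.Agent.helper23.TH

/-! ### Main statements -/

/-- upper bound for the powers of a balanced rooted graph -/
def UB_stmt : Prop := ∀ T : Rooted, T.Balanced → 1 ≤ T.v → 1 ≤ T.e → T.e ≤ 2 * T.v →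
  ∃ p : ℕ, ∃ C : ℝ, 0 < C ∧ ∃ N : ℕ, ∀ n : ℕ, N ≤ n →
    ∃ m : ℕ, (m : ℝ) ≤ C * (n : ℝ) ^ (2 * (T.v : ℝ) / T.e) ∧
      ∃ χ : Fin n → Fin n → Fin m, PC χ ∧ ¬ Two (T.pw p) χ

/-- lower bound for theta graphs -/
def LB_stmt : Prop := ∀ l p : ℕ, 2 ≤ l → 2 ≤ p → ∃ c : ℝ, 0 < c ∧ ∃ N : ℕ, ∀ n : ℕ, N ≤ n →
  ∀ m : ℕ, ∀ χ : Fin n → Fin n → Fin m, PC χ → ¬ Two (theta l p) χ →
    c * (n : ℝ) ^ (2 - 2 / (l : ℝ)) ≤ (m : ℝ)

/-- MONO: fewer copies -/
def MONO_stmt : Prop := ∀ (T : Rooted) (p q : ℕ), p ≤ q → ∀ (V K : Type) (χ : V → V → K),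
  Two (T.pw q) χ → Two (T.pw p) χ

/-- PB: the path is balanced (a nonempty set `S` of inner vertices meets at least `|S| + 1` edges, and
`|S| ≤ l - 1`), and theta graphs are bipartite (parity of the distance to the first end) -/
def PB_stmt : Prop := (∀ l : ℕ, 2 ≤ l → (pathT l).Balanced) ∧ ∀ l p : ℕ, (theta l p).Colorable 2

/-! ### Lower bound -/

open Classical in
/-- degree into `U` -/
noncomputable def dg {V : Type} [Fintype V] (A : V → V → Prop) (U : Finset V) (v : V) : ℕ :=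
  (U.filter (fun w => A v w)).card

/-- RGL: regularisation. Take a nonempty `U` with `D(U) / |U| ^ (1 + 1/l)` maximal, `D(U) = ∑ v ∈ U, dg A U v`.
Let `κ = 72 ^ l`, `T = {v ∈ U : κ D(U) < dg U v * |U|}`, so `|T| < |U| / κ`. If `T = ∅` take `U`. Otherwise
`|U| > κ`; cut `U` into at most `2 κ` blocks `B` of size at most `⌈|U| / κ⌉ ≤ 2 |U| / κ`; the number of pairs
`(u, w)`, `u ∈ T`, `w ∈ U`, `A u w` is at most `∑ B, D(T ∪ B) ≤ 2 κ (D(U) / |U|^(1+1/l)) (3 |U| / κ)^(1+1/l)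
≤ D(U) / 4`. So `D(U \ T) ≥ D(U) / 2`; `U \ T` does it with `K = 2 κ`, `C₁ = 2 C₂`. -/
def RGL_stmt : Prop := ∀ l : ℕ, 1 ≤ l → ∃ K : ℝ, 0 < K ∧ ∀ C₂ : ℝ, 0 < C₂ → ∃ C₁ : ℝ, 0 < C₁ ∧
  ∀ (V : Type) [Fintype V] (A : V → V → Prop), (∀ u v, A u v → A v u) → 0 < Fintype.card V →
    C₁ * (Fintype.card V : ℝ) ^ (1 + 1 / (l : ℝ)) ≤ ∑ v, (dg A Finset.univ v : ℝ) →
    ∃ U : Finset V, U.Nonempty ∧
      C₂ * (U.card : ℝ) ^ (1 + 1 / (l : ℝ)) ≤ ∑ v ∈ U, (dg A U v : ℝ) ∧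
      ∀ v ∈ U, (dg A U v : ℝ) * U.card ≤ K * ∑ w ∈ U, (dg A U w : ℝ)

/-- the auxiliary graph on ordered pairs -/
def Ga {V K : Type*} (χ : V → V → K) (u w : V × V) : Prop :=
  u.1 ≠ u.2 ∧ w.1 ≠ w.2 ∧ u.1 ≠ w.1 ∧ u.1 ≠ w.2 ∧ u.2 ≠ w.1 ∧ u.2 ≠ w.2 ∧ χ u.1 w.1 = χ u.2 w.2

/-- the two ordered pairs have a common entry -/
def Re {V : Type*} (u w : V × V) : Prop := u.1 = w.1 ∨ u.1 = w.2 ∨ u.2 = w.1 ∨ u.2 = w.2

open Classical in
/-- EC: number of edges of `Ga χ` (Cauchy-Schwarz over the colours; by properness the quadruples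
`(x, x', y, y')`, `x ≠ x'`, `y ≠ y'`, `χ x x' = χ y y'` which are not counted have `{x, x'} = {y, y'}`, they are
`2 n (n - 1)`); at most 4 neighbours of `w` are related to `u` -/
def EC_stmt : Prop :=
  (∀ (n m : ℕ) (χ : Fin n → Fin n → Fin m), PC χ → 2 ≤ n → 4 * (m : ℝ) ≤ n * (n - 1) →
    (n : ℝ) ^ 4 / (8 * m) ≤ ∑ v, (dg (Ga χ) Finset.univ v : ℝ)) ∧
  ∀ (V K : Type) [Fintype V] (χ : V → V → K), PC χ → ∀ u w : V × V,
    (Finset.univ.filter (fun z => Ga χ w z ∧ Re z u)).card ≤ 4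

/-- walks with `l` steps -/
def Wk {V : Type} (A : V → V → Prop) (l : ℕ) (P : Fin (l + 1) → V) : Prop :=
  ∀ i : Fin l, A (P i.castSucc) (P i.succ)

open Classical in
/-- adjacency matrix -/
noncomputable def am {V : Type} (A : V → V → Prop) : Matrix V V ℝ :=
  Matrix.of fun a b => if A a b then 1 else 0

open Classical in
/-- number of pairs of walks with `j` steps and the same ends -/
noncomputable def hh {V : Type} [Fintype V] (A : V → V → Prop) (j : ℕ) : ℝ :=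
  ∑ a, ∑ b, ((am A ^ j) a b) ^ 2

open Classical in
/-- WC: number of walks between two vertices (induction on `j`, `Fin.consEquiv`) -/
def WC_stmt : Prop := ∀ (V : Type) [Fintype V] (A : V → V → Prop) (j : ℕ) (a b : V),
  (((Finset.univ : Finset (Fin (j + 1) → V)).filter
    (fun P => Wk A j P ∧ P 0 = a ∧ P (Fin.last j) = b)).card : ℝ) = (am A ^ j) a b

open Classical in
/-- WI. `h_j ^ 2 ≤ h_{j-1} h_{j+1}` (`h_j = tr (A^(j-1) A^(j+1))`, Cauchy-Schwarz), so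
`h_{l-1} ^ l ≤ h_0 h_l ^ (l-1)`, `h_0 = M`. With `s_j = ∑ a, (∑ b, (A^j) a b)^2`: `s_j ^ 2 ≤ s_{j-1} s_{j+1}`,
`s_0 = M`, `s_1 ≥ D^2 / M`, so `s_l ≥ M (D/M)^(2l)`, and `s_l ≤ M h_l`. -/
def WI_stmt : Prop := ∀ (V : Type) [Fintype V] (A : V → V → Prop), (∀ u v, A u v → A v u) →
  ∀ l : ℕ, 1 ≤ l → 0 < ∑ v, (dg A Finset.univ v : ℝ) →
    0 < hh A l ∧ hh A (l - 1) * ((∑ v, (dg A Finset.univ v : ℝ)) / Fintype.card V) ^ 2 ≤
      (Fintype.card V : ℝ) ^ (1 / (l : ℝ)) * hh A l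

/-- closed walks with `2 k + 2` steps -/
def CWk {V : Type} (A : V → V → Prop) (k : ℕ) (z : ZMod (2 * k + 2) → V) : Prop :=
  ∀ i, A (z i) (z (i + 1))

/-- GLU: a closed walk is the union of two walks from `z 0` to `z (k + 1)` -/
def GLU_stmt : Prop := ∀ (V : Type) (A : V → V → Prop), (∀ u v, A u v → A v u) → ∀ k : ℕ,
  Set.BijOn (fun z : ZMod (2 * k + 2) → V =>
      ((fun i : Fin (k + 2) => z (i.1 : ZMod (2 * k + 2))),
        (fun i : Fin (k + 2) => z (-(i.1 : ZMod (2 * k + 2))))))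
    {z | CWk A k z}
    {q : (Fin (k + 2) → V) × (Fin (k + 2) → V) | Wk A (k + 1) q.1 ∧ Wk A (k + 1) q.2 ∧
      q.1 0 = q.2 0 ∧ q.1 (Fin.last (k + 1)) = q.2 (Fin.last (k + 1))}

open Classical in
/-- BAD (from WC, GLU). By rotation and symmetry of `R`: `i = 0`, `j = t`, `1 ≤ t ≤ k + 1`. By GLU count pairs
`(P, P')` with `R (P 0) (P t)`; `P = (x₀, Q)`, `Q` a walk with `k` steps. For given `Q` the sum over `x₀`
(at most `s` choices) of `(A^(k+1)) x₀ (Q last)` is at most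
`g (Q 0) (Q last) = (s ∑ x₀ ~ Q 0, ((A^(k+1)) x₀ (Q last))^2)^(1/2)`, and
`∑ Q, g (Q 0) (Q last) = ∑ x, y, (A^k) x y * g x y`; Cauchy-Schwarz. -/
def BAD_stmt : Prop := ∀ (V : Type) [Fintype V] (A R : V → V → Prop), (∀ u v, A u v → A v u) →
  (∀ u v, R u v → R v u) → ∀ s Δ : ℕ,
  (∀ u v, (Finset.univ.filter (fun w => A v w ∧ R w u)).card ≤ s) →
  (∀ v, dg A Finset.univ v ≤ Δ) → ∀ (k : ℕ) (i j : ZMod (2 * k + 2)), i ≠ j →
    (((Finset.univ : Finset (ZMod (2 * k + 2) → V)).filter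
      (fun z => CWk A k z ∧ R (z i) (z j))).card : ℝ) ^ 2 ≤ s * Δ * hh A k * hh A (k + 1)

open Classical in
/-- TU: weak form of Turan's theorem -/
def TU_stmt : Prop := ∀ (α : Type) [Fintype α] (g : α → α → Prop), (∀ x y, g x y → g y x) →
  ∀ p : ℕ, 2 ≤ p → (¬ ∃ f : Fin p → α, Function.Injective f ∧ ∀ i j, i ≠ j → g (f i) (f j)) →
    (Fintype.card α) ^ 2 ≤ p * ((Finset.univ : Finset (α × α)).filter
      (fun q => q.1 = q.2 ∨ ¬ g q.1 q.2)).card

open Classical in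
/-- FP (from WC, WI, GLU, BAD, TU). `(P, P')` is good if the closed walk `z` of GLU has `¬ R (z i) (z j)` for all
`i ≠ j`. If there is no family `P` as claimed then for all ends `a`, `b` there are no `p` mutually good walks, so by
TU at least `1/p` of the pairs are not good (`P = P'` is not good, as `R` is reflexive and `1 ≤ k`): at least
`hh A (k+1) / p` closed walks are bad. By BAD and WI at most
`(2k+2)^2 (s K / C₂)^(1/2) hh A (k+1)` are bad. -/
def FP_stmt : Prop := ∀ (k p s : ℕ) (K : ℝ), 1 ≤ k → 2 ≤ p → 0 < K → ∃ C₂ : ℝ, 0 < C₂ ∧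
  ∀ (V : Type) [Fintype V] (A R : V → V → Prop), (∀ u v, A u v → A v u) →
  (∀ u v, R u v → R v u) → (∀ v, R v v) →
  (∀ u v, (Finset.univ.filter (fun w => A v w ∧ R w u)).card ≤ s) → 0 < Fintype.card V →
  C₂ * (Fintype.card V : ℝ) ^ (1 + 1 / ((k : ℝ) + 1)) ≤ ∑ v, (dg A Finset.univ v : ℝ) →
  (∀ v, (dg A Finset.univ v : ℝ) * Fintype.card V ≤ K * ∑ w, (dg A Finset.univ w : ℝ)) →
  ∃ P : Fin p → Fin (k + 2) → V, (∀ t, Wk A (k + 1) (P t)) ∧
    (∀ t t', P t 0 = P t' 0 ∧ P t (Fin.last (k + 1)) = P t' (Fin.last (k + 1))) ∧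
    (∀ t i j, i ≠ j → ¬ R (P t i) (P t j)) ∧
    (∀ t t', t ≠ t' → ∀ i j, ¬ (i = 0 ∧ j = 0) → ¬ (i = Fin.last (k + 1) ∧ j = Fin.last (k + 1)) →
      ¬ R (P t i) (P t' j))

/-- TR: the first entries and the second entries of the walks are two disjoint colour isomorphic thetas -/
def TR_stmt : Prop := ∀ (V K : Type) (χ : V → V → K), (∀ a b, χ a b = χ b a) → ∀ (l p : ℕ), 2 ≤ l →
  1 ≤ p → ∀ P : Fin p → Fin (l + 1) → V × V, (∀ t, Wk (Ga χ) l (P t)) →
    (∀ t t', P t 0 = P t' 0 ∧ P t (Fin.last l) = P t' (Fin.last l)) →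
    (∀ t i j, i ≠ j → ¬ Re (P t i) (P t j)) →
    (∀ t t', t ≠ t' → ∀ i j, ¬ (i = 0 ∧ j = 0) → ¬ (i = Fin.last l ∧ j = Fin.last l) →
      ¬ Re (P t i) (P t' j)) → Two (theta l p) χ

/-- LB: from RGL (with this `l`), EC, FP (`k = l - 1`, `s = 4`, on the subtype of `U`), TR. If
`4 m > n (n - 1)` the bound is trivial, otherwise `EC` and `m < c n^(2 - 2/l)` give
`∑ dg ≥ n^4 / (8 m) ≥ (1 / (8 c)) (n^2)^(1 + 1/l)`. -/
def LBfrom_stmt : Prop := RGL_stmt → EC_stmt → FP_stmt → TR_stmt → LB_stmt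

/-! ### Upper bound -/

/-- index set of the symmetric functions of two points with `b` coordinates -/
abbrev Ix (b : ℕ) := Fin b ⊕ (Fin b × Fin b)

/-- monomials in `Ix b` variables with exponents at most `d` -/
abbrev Mon (b d : ℕ) := Ix b → Fin (d + 1)

/-- symmetric functions of two points; they determine the unordered pair -/
def gg {F : Type*} [Field F] {b : ℕ} (x y : Fin b → F) : Ix b → F
  | .inl i => x i + y i
  | .inr (i, j) => x i * y j + x j * y i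

/-- value of a monomial -/
def ev {F : Type*} [Field F] {b d : ℕ} (v : Ix b → F) (μ : Mon b d) : F := ∏ i, v i ^ (μ i : ℕ)

/-- colour of the pair `x, y`: the values of `m` polynomials (coefficients `a`) at `gg x y` -/
def col {F : Type*} [Field F] {b m d : ℕ} (a : Fin m → Mon b d → F) (x y : Fin b → F) : Fin m → F :=
  fun j => ∑ μ, a j μ * ev (gg x y) μ

theorem gg_comm {F : Type*} [Field F] {b : ℕ} (x y : Fin b → F) : gg x y = gg y x := by
  funext i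
  rcases i with i | ⟨i, j⟩
  · simp only [gg]; ring
  · simp only [gg]; ring

theorem col_comm {F : Type*} [Field F] {b m d : ℕ} (a : Fin m → Mon b d → F) (x y : Fin b → F) :
    col a x y = col a y x := by
  unfold col; rw [gg_comm]

/-- colour of an unordered pair -/
def colS {F : Type*} [Field F] {b m d : ℕ} (a : Fin m → Mon b d → F) :
    Sym2 (Fin b → F) → (Fin m → F) := Sym2.lift ⟨col a, col_comm a⟩

/-- SEP: `(x - y)_i (x - y)_j = (x + y)_i (x + y)_j - 2 (x_i y_j + x_j y_i)`, so `gg` determines `x + y` and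
`x - y` up to sign -/
def SEP_stmt : Prop := ∀ (F : Type) [Field F], (2 : F) ≠ 0 → ∀ (b : ℕ) (x y x' y' : Fin b → F),
  gg x y = gg x' y' → s(x, y) = s(x', y')

/-- IP: interpolation (for each `e` the product over `e' ≠ e` of linear forms in one variable which vanish at
`w e'` and not at `w e`) -/
def IP_stmt : Prop := ∀ (F : Type) [Field F] (b d k : ℕ) (w : Fin k → Ix b → F),
  Function.Injective w → k ≤ d + 1 → LinearIndependent F (fun e => fun μ : Mon b d => ev (w e) μ)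

open Classical in
/-- CD (from SEP, IP): dimension count. Let `L = k₀ (coordinates of W)`. The vectors `φ_e = (ev (gg e) μ)_μ`,
`e ∈ E`, lie in `L ^ Mon` and are linearly independent; complete them by unit vectors `δ_μ`, `μ ∈ B`,
`|B| = |Mon| - |E|`, to a basis of `L ^ Mon`. As `a j : v ↦ ∑ μ, a j μ * v μ` is `L`-linear with
`a j (φ_e) = (colS a e) j` and `a j (δ_μ) = a j μ`, all `a j μ` lie in the field generated over `k₀` by the
coordinates of `W` (`b |W|` elements), the `(colS a e) j` (`m |image|` elements) and the `a j μ`, `μ ∈ B`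
(`m (|Mon| - |E|)` elements). An algebraically independent family of this field is not larger. -/
def CD_stmt : Prop := ∀ (k₀ F : Type) [Field k₀] [Field F] [Algebra k₀ F], (2 : F) ≠ 0 →
  ∀ (b m d : ℕ) (a : Fin m → Mon b d → F) (W : Finset (Fin b → F)) (E : Finset (Sym2 (Fin b → F))),
    (∀ e ∈ E, ∀ x ∈ e, x ∈ W) → E.card ≤ d + 1 → ∀ (s : ℕ) (y : Fin s → F),
    (∀ t, ∃ x ∈ W, ∃ i, y t = x i) →
    AlgebraicIndependent k₀ (Sum.elim (fun q : Fin m × Mon b d => a q.1 q.2) y) →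
    s + m * E.card ≤ b * W.card + m * (E.image (colS a)).card

/-- PU: unions of copies of a balanced rooted graph (add the copies one by one: the edges of the new copy which
meet the set `S` of its new inner vertices are new) -/
def PU_stmt : Prop := ∀ T : Rooted, T.Balanced → ∀ (X : Type) [DecidableEq X] (R₀ : Finset X) (N : ℕ)
  (τ : Fin N → (Fin T.r ⊕ Fin T.v) → X), (∀ t, Function.Injective (τ t)) →
  (∀ t x, τ t (Sum.inl x) ∈ R₀) → (∀ t y, τ t (Sum.inr y) ∉ R₀) →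
  T.e * (Finset.univ.image (fun q : Fin N × Fin T.v => τ q.1 (Sum.inr q.2))).card ≤
    T.v * (Finset.univ.image
      (fun q : Fin N × Fin T.e => s(τ q.1 (T.ed q.2).1, τ q.1 (T.ed q.2).2))).card

/-- algebraic closure of the field with three elements -/
abbrev Om : Type := AlgebraicClosure (ZMod 3)

/-- ultrapower of `Om` -/
abbrev Kst : Type := ((hyperfilter ℕ : Ultrafilter ℕ) : Filter ℕ).Germ Om

/-- class of a sequence -/
noncomputable def cl (x : ℕ → Om) : Kst := (x : Kst)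

/-- constants -/
noncomputable def constHom : Om →+* Kst where
  toFun x := cl (fun _ => x)
  map_one' := rfl
  map_mul' _ _ := rfl
  map_zero' := rfl
  map_add' _ _ := rfl

noncomputable instance instAlgKst : Algebra (ZMod 3) Kst := (constHom.comp (algebraMap (ZMod 3) Om)).toAlgebra

/-- the sequence `a` is generic -/
def Gen {ι : Type} (a : ℕ → ι → Om) : Prop := ∀ (j : ℕ) (P : MvPolynomial ι (ZMod 3)), P ≠ 0 →
  P.totalDegree ≤ j → MvPolynomial.aeval (a j) P ≠ 0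

/-- GE. The family `cl a` is algebraically independent by `Gen`. Induction on `s`: let `Q` be the (countable) set of the
elements of `Kst` algebraic over the field generated by the elements chosen before. If `cl (z · c) ∈ Q` for
all choices `z j ∈ S j` and all `c`: enumerate `κ → Q` by classes of sequences `r i`, `i : ℕ`, and choose
`z j ∈ S j` different from `r i j`, `i < j`; its class is none of the enumerated ones. -/
def GE_stmt : Prop := ∀ (ι κ : Type) [Fintype ι] [Fintype κ] (a : ℕ → ι → Om) (S : ℕ → Set (κ → Om)),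
  Gen a → (∀ j : ℕ, (j : ℕ∞) < (S j).encard) → ∀ s : ℕ, ∃ z : Fin s → ℕ → κ → Om,
    (∀ t j, z t j ∈ S j) ∧ ∃ c : Fin s → κ, AlgebraicIndependent (ZMod 3)
      (Sum.elim (fun i => cl (fun j => a j i)) (fun t => cl (fun j => z t j (c t))))

/-- EX1 (from GE, CD): the classes of the points of one colour at `x`. GE with `κ = Fin b ⊕ Fin b`,
`S j = {Sum.elim (x j) x'}`, `s = 2 m + 1`; CD with `W = {x} ∪ {x'_t}`, `E = {s(x, x'_t)}`, one colour. -/
def EX1_stmt : Prop := ∀ b m d : ℕ, b ≤ m → 2 * m ≤ d → ∀ a : ℕ → Fin m → Mon b d → Om,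
  Gen (fun j (q : Fin m × Mon b d) => a j q.1 q.2) → ∀ (x : ℕ → Fin b → Om) (c : ℕ → Fin m → Om),
    ∃ j : ℕ, {x' : Fin b → Om | x' ≠ x j ∧ col (a j) (x j) x' = c j}.encard ≤ (j : ℕ∞)

/-- pairs of disjoint colour isomorphic copies of `T` with given roots -/
def Sol {F : Type*} [Field F] (T : Rooted) {b m d : ℕ} (a : Fin m → Mon b d → F)
    (ρ ρ' : Fin T.r → Fin b → F) :
    Set ((Fin T.r ⊕ Fin T.v → Fin b → F) × (Fin T.r ⊕ Fin T.v → Fin b → F)) :=
  {z | (∀ x, z.1 (Sum.inl x) = ρ x) ∧ (∀ x, z.2 (Sum.inl x) = ρ' x) ∧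
    Function.Injective (Sum.elim z.1 z.2) ∧
    ∀ i, col a (z.1 (T.ed i).1) (z.1 (T.ed i).2) = col a (z.2 (T.ed i).1) (z.2 (T.ed i).2)}

/-- EX2 (from GE, CD, PU): `s = 2 r e + 1` solutions; `W` the `2 r` roots and the inner vertices of the `2 s` copies,
`E` the edges of the copies, `|E| ≤ 2 s e`; every edge has a partner with the same colour, so
`2 |image| ≤ |E|`; PU gives `e (|W| - 2 r) ≤ v |E|`; CD gives `s ≤ 2 r e`. -/
def EX2_stmt : Prop := ∀ T : Rooted, T.Balanced → 1 ≤ T.v → ∀ d : ℕ,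
  2 * (2 * T.r * T.e + 1) * T.e ≤ d → ∀ a : ℕ → Fin (2 * T.v) → Mon T.e d → Om,
  Gen (fun j (q : Fin (2 * T.v) × Mon T.e d) => a j q.1 q.2) →
    ∀ (ρ ρ' : ℕ → Fin T.r → Fin T.e → Om), ∃ j : ℕ, (Sol T (a j) (ρ j) (ρ' j)).encard ≤ (j : ℕ∞)

/-- SZ: points without small relations (Schwartz-Zippel for the product of the finitely many `P`) -/
def SZ_stmt : Prop := ∀ (ι : Type) [Fintype ι] (j : ℕ), ∃ i₀ : ℕ, ∀ i ≥ i₀, ∃ a : ι → GaloisField 3 i,
  ∀ P : MvPolynomial ι (ZMod 3), P ≠ 0 → P.totalDegree ≤ j → MvPolynomial.aeval a P ≠ 0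

/-- EX (from EX1, EX2, SZ). Otherwise for every `j` there is `i_j ≥ i₀ (j)` (SZ) such that all `a` fail with
`C = j`; take `a j` from SZ. The first or the second property fails for infinitely many `j`; pass to this
subsequence (still generic) and to `Om` (`IsAlgClosed.lift`). -/
def EX_stmt : Prop := ∀ T : Rooted, T.Balanced → 1 ≤ T.v → 1 ≤ T.e → T.e ≤ 2 * T.v →
  ∃ d C i₀ : ℕ, ∀ i ≥ i₀, ∃ a : Fin (2 * T.v) → Mon T.e d → GaloisField 3 i,
    (∀ (x : Fin T.e → GaloisField 3 i) (c : Fin (2 * T.v) → GaloisField 3 i),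
      {x' : Fin T.e → GaloisField 3 i | x' ≠ x ∧ col a x x' = c}.encard ≤ (C : ℕ∞)) ∧
    ∀ ρ ρ' : Fin T.r → Fin T.e → GaloisField 3 i, (Sol T a ρ ρ').encard ≤ (C : ℕ∞)

/-- GC: greedy refinement to a proper colouring -/
def GC_stmt : Prop := ∀ (V K : Type) [Finite V] (f : V → V → K) (C : ℕ), (∀ a b, f a b = f b a) →
  (∀ (x : V) (c : K), {x' : V | x' ≠ x ∧ f x x' = c}.encard ≤ (C : ℕ∞)) →
  ∃ g : V → V → Fin (2 * C + 1), PC (fun a b => (f a b, g a b))

/-- UA: from EX, GC. Take `p = C + 1`; two disjoint colour isomorphic copies of `T.pw p` give `p` elements of `Sol`.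
For given `n` take `q = 3 ^ i` minimal with `n ≤ q ^ e` and restrict the colouring of `Fin e → F_q`. -/
def UA_stmt : Prop := EX_stmt → GC_stmt → UB_stmt

/-! ### Result -/

/-- ISO: `Law` for a graph on `Fin k` isomorphic to `H` -/
def ISO_stmt : Prop := ∀ (W : Type) [Fintype W] (H : SimpleGraph W) (r : ℝ), H.Colorable 2 → Law H r →
  ∃ k : ℕ, ∃ H' : SimpleGraph (Fin k), H'.Colorable 2 ∧ Law H' r

/-- the result -/
def Main_stmt : Prop :=
  (∀ l : ℕ, 3 ≤ l → (∀ p, (theta l p).Colorable 2) ∧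
    (∃ p₀ : ℕ, ∀ p : ℕ, p₀ ≤ p → Law (theta l p) (2 - 2 / (l : ℝ))) ∧
    ∃ k : ℕ, ∃ H : SimpleGraph (Fin k), H.Colorable 2 ∧ Law H (2 - 2 / (l : ℝ))) ∧
  (∀ T : Rooted, T.Balanced → 1 ≤ T.v → 1 ≤ T.e → T.e ≤ 2 * T.v →
    ∃ p₀ : ℕ, ∀ p : ℕ, p₀ ≤ p → ∃ C : ℝ, 0 < C ∧ ∃ N : ℕ, ∀ n : ℕ, N ≤ n →
      ∃ m : ℕ, (m : ℝ) ≤ C * (n : ℝ) ^ (2 * (T.v : ℝ) / T.e) ∧
        ∃ χ : Fin n → Fin n → Fin m, PC χ ∧ ¬ Two (T.pw p) χ)

end Pool.Agent.helper23.TH
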